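import Pool.Agent.L0h86.JS.Stm
import Pool.Agent.L0h75.JR.HYR

/-!
# JS: the systems satisfy the hypotheses (module HYG)
-/

set_option autoImplicit false
set_option linter.unusedSectionVars false

open scoped Classical

namespace Pool.Agent.L0h26.JS

open Finset
open Pool.Agent.Y703.CQ (nr sg)
open Pool.Agent.N973.ND (Pr ty uu)
open Pool.Agent.N916.GB (Po sy Vt)
open Pool.Agent.L0h74.EV (Cl n2)
open Pool.Agent.L0h74.AP (Cp)
open Pool.Agent.L0h86.JR
open Pool.Agent.L0h86.JS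
open Pool.Agent.L0h75.JR (cls dgR_eq par4 t_HYR)

lemma nr_two' {q : ℕ} (hq : Po q) : nr q 2 = if q % 8 = 3 ∨ q % 8 = 5 then 1 else 0 := by
  have := Fact.mk hq.1
  unfold nr
  have h := ZMod.exists_sq_eq_two_iff hq.2
  have h2 : ((2 : ℕ) : ZMod q) = 2 := by norm_num
  have hodd : q % 2 = 1 := hq.1.eq_two_or_odd.resolve_left hq.2
  rw [h2]
  by_cases h8 : q % 8 = 1 ∨ q % 8 = 7
  · rw [if_pos (h.2 h8), if_neg (by omega)]
  · rw [if_neg (fun h' => h8 (h.1 h')), if_pos (by omega)]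

/-- the sum of the symbols of two -/
lemma par8 {S : Finset ℕ} (hS : ∀ p ∈ S, Po p) :
    ((∑ p ∈ S, nr p 2 = 0 ∧ ((∏ p ∈ S, p) % 8 = 1 ∨ (∏ p ∈ S, p) % 8 = 7)) ∨
      (∑ p ∈ S, nr p 2 = 1 ∧ ((∏ p ∈ S, p) % 8 = 3 ∨ (∏ p ∈ S, p) % 8 = 5))) := by
  induction S using Finset.induction_on with
  | empty => left; simp
  | insert q S hq ih =>
    have ih' := ih fun p hp => hS p (mem_insert_of_mem hp)
    have h1 := hS q (mem_insert_self _ _)
    have hodd : q % 2 = 1 := h1.1.eq_two_or_odd.resolve_left h1.2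
    rw [prod_insert hq, sum_insert hq, nr_two' h1]
    have h11 : (1 : ZMod 2) + 1 = 0 := by decide
    have h8 : q % 8 = 1 ∨ q % 8 = 3 ∨ q % 8 = 5 ∨ q % 8 = 7 := by omega
    rcases ih' with ⟨h4, h5⟩ | ⟨h4, h5⟩ <;> rw [h4] <;>
      rcases h8 with h8 | h8 | h8 | h8 <;> rcases h5 with h5 | h5 <;>
      rw [Nat.mul_mod, h5, h8] <;> simp [h11]

lemma odd_a {u a : ℕ} (hc : Cp u a) (h56 : 56 ∣ u) : a % 2 = 1 := by
  have h1 : a.Coprime 2 := Nat.Coprime.coprime_dvd_right (by
    exact (by norm_num : 2 ∣ 56).trans h56) hc.cop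
  rcases Nat.mod_two_eq_zero_or_one a with h2 | h2
  · exfalso
    have h3 := Nat.dvd_gcd (Nat.dvd_of_mod_eq_zero h2) (dvd_refl 2)
    rw [h1] at h3
    omega
  · exact h2

theorem t_HYG : Pool.Agent.L0h2.P.S_CLS → S_CL7 → S_HYG := by
  intro hCLS hCL7 u a hc h56 t g hg hgu hinj
  obtain ⟨n', cl', x', hR⟩ := t_HYR hCLS hCL7 u a hc h56 t g hg hgu hinj
  have hu : 0 < u := hc.pos
  set e := u.primeFactors.equivFin with he
  have hpr : ∀ i : Fin u.primeFactors.card, ((e.symm i : ℕ)).Prime ∧ (e.symm i : ℕ) ∣ u := fun i =>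
    ⟨Nat.prime_of_mem_primeFactors (e.symm i).2, Nat.dvd_of_mem_primeFactors (e.symm i).2⟩
  choose c hc1 hc2 hc3 using fun i : Fin u.primeFactors.card =>
    cls hCLS hCL7 h56 hu (hpr i).1 (hpr i).2
  -- the flagged systems
  have hF : ∀ l, flG (g l) a = true → g l % 2 = 1 ∧ (g l * a) % 8 = 7 := fun l h =>
    of_decide_eq_true h
  have hsT : ∀ l, flG (g l) a = true → sysG (g l) a = ⟨true, 1, 0, (g l).primeFactors⟩ := by
    intro l h
    unfold sysG
    rw [if_pos h]
  have hsF : ∀ l, ¬ flG (g l) a = true → sysG (g l) a = sysR (g l) a := by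
    intro l h
    unfold sysG
    rw [if_neg h]
  have hWF : ∀ l, flG (g l) a = true → ∀ v ∈ (g l).primeFactors, Po v ∧ v ∣ u ∧ v ∣ g l := by
    intro l h v hv
    have h3 := Nat.prime_of_mem_primeFactors hv
    have h4 := Nat.dvd_of_mem_primeFactors hv
    have h5 : v ≠ 2 := by
      rintro rfl
      have := (hF l h).1
      omega
    exact ⟨⟨h3, h5⟩, hgu l v h3 h4, h4⟩
  have hprod : ∀ l, flG (g l) a = true → ∀ S, Cl u a S →
      (∀ p ∈ S ∪ (g l).primeFactors, Po p) ∧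
        (∏ p ∈ S ∪ (g l).primeFactors, p) % 8 = 7 := by
    intro l h S hS
    have hSu : Disjoint S (g l).primeFactors := by
      rw [Finset.disjoint_left]
      intro p hp hpW
      have h1 := (hWF l h p hpW).2.1
      have h2 : p ∣ ∏ p ∈ S, p := Finset.dvd_prod_of_mem _ hp
      have h3 : p ∣ (∏ p ∈ S, p) % u := (Nat.dvd_mod_iff h1).2 h2
      rw [hS.2] at h3
      have h4 := Nat.dvd_gcd h3 h1
      rw [hc.cop] at h4
      exact (hS.1 p hp).1.one_lt.ne' (Nat.dvd_one.1 h4)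
    constructor
    · intro p hp
      rcases Finset.mem_union.1 hp with h' | h'
      · exact ⟨(hS.1 p h').1, (hS.1 p h').2.1⟩
      · exact (hWF l h p h').1
    · rw [Finset.prod_union hSu]
      have h1 : ∏ p ∈ (g l).primeFactors, p = g l := Nat.prod_primeFactors_of_squarefree (hg l)
      have h2 : (∏ p ∈ S, p) % 8 = a % 8 := by
        rw [← hS.2, Nat.mod_mod_of_dvd _ ((by norm_num : 8 ∣ 56).trans h56)]
      rw [h1, Nat.mul_mod, h2, ← Nat.mul_mod, mul_comm]
      exact (hF l h).2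
  refine ⟨u.primeFactors.card, c, fun l i => if (e.symm i : ℕ) ∣ g l then 1 else 0, ?_⟩
  refine ⟨hc, h56, ?_, ?_, ?_, ?_, ?_, ?_, fun i => ⟨hc1 i, hc2 i⟩, ?_, ?_⟩
  · intro l hl
    by_cases h : flG (g l) a = true
    · simp only [hsT l h]
    · simp only [hsF l h] at hl ⊢
      exact hR.ts l hl
  · intro l hl
    by_cases h : flG (g l) a = true
    · left
      simp only [hsT l h]
      exact one_ne_zero
    · simp only [hsF l h] at hl ⊢
      exact hR.tr l hl
  · intro l h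
    simp only [hsT l h]
    exact ⟨trivial, trivial, trivial⟩
  · intro l v hv
    by_cases h : flG (g l) a = true
    · simp only [hsT l h] at hv
      exact ⟨(hWF l h v hv).1, (hWF l h v hv).2.1⟩
    · simp only [hsF l h] at hv
      exact hR.W l v hv
  · intro l S hS
    by_cases h : flG (g l) a = true
    · simp only [hsT l h]
      obtain ⟨h1, h2⟩ := hprod l h S hS
      have h4 := par4 (S := S ∪ (g l).primeFactors) (fun p hp =>
        (h1 p hp).1.eq_two_or_odd.resolve_left (h1 p hp).2)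
      rw [if_pos trivial]
      rcases h4 with ⟨h5, h6⟩ | ⟨h5, h6⟩
      · omega
      · omega
    · simp only [hsF l h]
      exact hR.par l S hS
  · intro l h S hS
    simp only [hsT l h]
    obtain ⟨h1, h2⟩ := hprod l h S hS
    rcases par8 h1 with ⟨h5, -⟩ | ⟨-, h6⟩
    · exact h5
    · omega
  · intro l i p hp hpc
    obtain ⟨h1, h2, h3⟩ := hc3 i p hp hpc
    refine ⟨h1, ?_⟩
    unfold dgG
    by_cases h : flG (g l) a = true
    · rw [if_pos h, hsT l h]
      show ∑ v ∈ (g l).primeFactors, nr v p = _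
      have h6 : ∀ v ∈ (g l).primeFactors, nr v p = if v = (e.symm i : ℕ) then 1 else 0 :=
        fun v hv => h2 v (hWF l h v hv).1 (hWF l h v hv).2.1
      rw [Finset.sum_congr rfl h6, Finset.sum_ite_eq']
      by_cases h7 : (e.symm i : ℕ) ∣ g l
      · rw [if_pos h7, if_pos (Nat.mem_primeFactors.2 ⟨(hpr i).1, h7, (hg l).ne_zero⟩)]
      · rw [if_neg h7, if_neg (fun h8 => h7 (Nat.dvd_of_mem_primeFactors h8))]
    · rw [if_neg h, hsF l h]
      exact dgR_eq (hg l) (hgu l) (hpr i).1 h1 h2 h3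
  · intro l l' hll
    by_contra hcon
    push Not at hcon
    apply hll
    apply hinj
    have h1 : ∀ p, p.Prime → p ∣ u → (p ∣ g l ↔ p ∣ g l') := by
      intro p hp hpu
      have h2 := hcon (e ⟨p, Nat.mem_primeFactors.2 ⟨hp, hpu, hu.ne'⟩⟩)
      rw [Equiv.symm_apply_apply] at h2
      by_cases h3 : p ∣ g l <;> by_cases h4 : p ∣ g l'
      · exact iff_of_true h3 h4
      · simp [h3, h4] at h2
      · simp [h3, h4] at h2
      · exact iff_of_false h3 h4
    rw [← Nat.prod_primeFactors_of_squarefree (hg l), ← Nat.prod_primeFactors_of_squarefree (hg l')]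
    congr 1
    ext p
    rw [Nat.mem_primeFactors, Nat.mem_primeFactors]
    constructor
    · rintro ⟨hp, hpg, -⟩
      exact ⟨hp, (h1 p hp (hgu l p hp hpg)).1 hpg, (hg l').ne_zero⟩
    · rintro ⟨hp, hpg, -⟩
      exact ⟨hp, (h1 p hp (hgu l' p hp hpg)).2 hpg, (hg l).ne_zero⟩

end Pool.Agent.L0h26.JS
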